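import Pool.Agent.K7.H84.GG.Stm

set_option autoImplicit false

/-! Project GG (MP_dc96bc_co), job KAP: the sum of the steps. -/

namespace Pool.Agent.K7.H93.GGKAP

open Finset DC813 Pool.Agent.K7.H84.GG

theorem mem_fl {α : Type} [DecidableEq α] {r : Finset α → ℕ} {E F : Finset α} :
    F ∈ fl r E ↔ F ⊆ E ∧ ∀ e ∈ E, e ∉ F → r F < r (insert e F) := by
  unfold fl
  rw [mem_filter, mem_powerset]

theorem fl_res {α : Type} [DecidableEq α] {r : Finset α → ℕ} (hr : IsRk r) {E F X : Finset α}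
    (hF : F ∈ fl r E) : X ∈ fl r F ↔ X ∈ fl r E ∧ X ⊆ F := by
  rw [mem_fl] at hF
  constructor
  · intro hX
    rw [mem_fl] at hX
    refine ⟨mem_fl.2 ⟨hX.1.trans hF.1, fun e he heX => ?_⟩, hX.1⟩
    by_cases heF : e ∈ F
    · exact hX.2 e heF heX
    · have h1 := hF.2 e he heF
      have h2 := hr.submod (insert e X) F
      have h3 : insert e X ∪ F = insert e F := by
        rw [insert_union, union_eq_right.2 hX.1]
      have h4 : insert e X ∩ F = X := by
        rw [insert_inter_of_notMem heF, inter_eq_left.2 hX.1]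
      rw [h3, h4] at h2
      omega
  · rintro ⟨h1, h2⟩
    rw [mem_fl] at h1 ⊢
    exact ⟨h2, fun e he heX => h1.2 e (hF.1 he) heX⟩

theorem XX_res {α : Type} [DecidableEq α] {r : Finset α → ℕ} (hr : IsRk r) {E F : Finset α}
    (L : Finset α) (hF : F ∈ fl r E) (X : Finset α) :
    X ∈ XX r F L ↔ X ∈ XX r E L ∧ X ⊆ F := by
  unfold XX
  rw [mem_filter, mem_filter, fl_res hr hF]
  tauto

/-- JOB KAP -/
theorem t (hSun : StSun) (hS2 : StS2) (hS2b : StS2b) (hS3 : StS3) (hS4 : StS4) (hS5 : StS5)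
    (hS6 : StS6) (hS6d : StS6d) (hS7 : StS7) (hSgn : StSgn) (hMuNN : StMuNN) : StKap := by
  intro α _ r E L p f hC hIH hf
  have hr := hC.hr
  obtain ⟨hk, hb⟩ := hSgn α r E L p hC hIH
  have hmu : ∀ G ∈ T1 r E L, 0 ≤ mu r G := by
    intro G hG
    have h1 : G ⊆ E := (mem_fl.1 (mem_filter.1 hG).1).1
    exact hMuNN α r G hr fun x hx => hC.lp x (h1 hx)
  -- steps 1 and 2
  have hA : ∑ G ∈ T1 r E L, mu r G * f (G ∪ (E \ cl r E (insert p G)))
      + ∑ G ∈ T1 r E L,
        mu r G * (((((hy r E p).filter (fun H => G ⊆ H)).card : ℤ) - 1) * f G)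
      ≤ ∑ G ∈ T1 r E L, ∑ H ∈ (hy r E p).filter (fun H => G ⊆ H), mu r G * f H := by
    rw [← sum_add_distrib]
    refine sum_le_sum fun G hG => ?_
    rw [← mul_add, ← mul_sum]
    exact mul_le_mul_of_nonneg_left (hSun α r E L p f G hC hf hG) (hmu G hG)
  have hA2 : ∑ G ∈ T1 r E L, ∑ H ∈ (hy r E p).filter (fun H => G ⊆ H), mu r G * f H
      = ∑ H ∈ hy r E p, mu r H * f H
        + ∑ H ∈ (hy r E p).filter (fun H => Disjoint H L), mu (con (tr r L) {p}) H * f H := by
    have h1 : ∑ G ∈ T1 r E L, ∑ H ∈ (hy r E p).filter (fun H => G ⊆ H), mu r G * f H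
        = ∑ H ∈ hy r E p, ∑ G ∈ (T1 r E L).filter (fun G => G ⊆ H), mu r G * f H := by
      refine sum_comm' ?_
      intro G H
      simp only [mem_filter]
      tauto
    rw [h1, sum_filter, ← sum_add_distrib]
    refine sum_congr rfl fun H hH => ?_
    rw [← sum_mul, hS2 α r E L p hC H hH]
    split_ifs with hd
    · ring
    · rw [hS2b α r E L p hC H hH hd]
      ring
  -- step 3
  have h3 := hS3 α r E L p f hC hIH hf
  -- step 4
  have h4 : ∑ G ∈ T1 r E L,
        mu r G * (((((hy r E p).filter (fun H => G ⊆ H)).card : ℤ) - 1) * f G)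
      = (((hy r L p).card : ℤ) - 1) * ∑ G ∈ T1 r E L, mu r G * f G
        + ∑ G ∈ T1 r E L, ∑ H ∈ (hy r E p).filter (fun H => G ⊆ H ∧ Disjoint H L),
          mu r G * f G := by
    rw [mul_sum, ← sum_add_distrib]
    refine sum_congr rfl fun G hG => ?_
    rw [hS4 α r E L p G hC hG, sum_const, nsmul_eq_mul]
    push_cast
    ring
  have h4b : ∑ G ∈ T1 r E L, ∑ H ∈ (hy r E p).filter (fun H => G ⊆ H ∧ Disjoint H L),
        mu r G * f G
      = ∑ H ∈ (hy r E p).filter (fun H => Disjoint H L),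
          ∑ G ∈ (T1 r E L).filter (fun G => G ⊆ H), mu r G * f G := by
    refine sum_comm' ?_
    intro G H
    simp only [mem_filter]
    tauto
  -- step 5
  have h5 : ∑ H ∈ (hy r E p).filter (fun H => Disjoint H L), (mu (con (tr r L) {p}) H * f H
        + ∑ X ∈ (XX r E L).filter (fun X => X ⊆ H),
            beta (tr r L) (insert p X) * mc r H X * f (H \ X))
      ≤ ∑ H ∈ (hy r E p).filter (fun H => Disjoint H L),
          ∑ G ∈ (T1 r E L).filter (fun G => G ⊆ H), mu r G * f G :=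
    sum_le_sum fun H hH =>
      hS5 α r E L p f H hC hIH hf (mem_filter.1 hH).1 (mem_filter.1 hH).2
  rw [sum_add_distrib] at h5
  have h5b : ∑ H ∈ (hy r E p).filter (fun H => Disjoint H L),
        ∑ X ∈ (XX r E L).filter (fun X => X ⊆ H),
            beta (tr r L) (insert p X) * mc r H X * f (H \ X)
      = ∑ X ∈ XX r E L, beta (tr r L) (insert p X) *
          ∑ H ∈ (hy r E p).filter (fun H => X ⊆ H), mc r H X * f (H \ X) := by
    have h1 : ∑ H ∈ (hy r E p).filter (fun H => Disjoint H L),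
        ∑ X ∈ (XX r E L).filter (fun X => X ⊆ H),
            beta (tr r L) (insert p X) * mc r H X * f (H \ X)
        = ∑ X ∈ XX r E L, ∑ H ∈ (hy r E p).filter (fun H => X ⊆ H),
            beta (tr r L) (insert p X) * mc r H X * f (H \ X) := by
      refine sum_comm' ?_
      intro H X
      simp only [mem_filter]
      constructor
      · rintro ⟨⟨a, b⟩, c, d⟩
        exact ⟨⟨a, d⟩, c⟩
      · rintro ⟨⟨a, d⟩, c⟩
        exact ⟨⟨a, hS6d α r E L p X H hC c a d⟩, c, d⟩
    rw [h1]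
    refine sum_congr rfl fun X _ => ?_
    rw [mul_sum]
    refine sum_congr rfl fun H _ => ?_
    ring
  -- step 6
  have h6 : ∑ X ∈ XX r E L, beta (tr r L) (insert p X) *
        ∑ F ∈ (fl r E).filter (fun F => X ⊆ F ∧ L ⊆ F),
          beta (con r X) (F \ X) * mc r E F * f (E \ F)
      ≤ ∑ X ∈ XX r E L, beta (tr r L) (insert p X) *
          ∑ H ∈ (hy r E p).filter (fun H => X ⊆ H), mc r H X * f (H \ X) :=
    sum_le_sum fun X hX =>
      mul_le_mul_of_nonneg_left (hS6 α r E L p f X hC hIH hf hX) (hb X hX)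
  have h6b : ∑ X ∈ XX r E L, beta (tr r L) (insert p X) *
        ∑ F ∈ (fl r E).filter (fun F => X ⊆ F ∧ L ⊆ F),
          beta (con r X) (F \ X) * mc r E F * f (E \ F)
      = ∑ F ∈ (fl r E).filter (fun F => L ⊆ F),
          (∑ X ∈ XX r F L, beta (tr r L) (insert p X) * beta (con r X) (F \ X))
            * mc r E F * f (E \ F) := by
    have h1 : ∑ X ∈ XX r E L, ∑ F ∈ (fl r E).filter (fun F => X ⊆ F ∧ L ⊆ F),
          beta (tr r L) (insert p X) * (beta (con r X) (F \ X) * mc r E F * f (E \ F))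
        = ∑ F ∈ (fl r E).filter (fun F => L ⊆ F), ∑ X ∈ XX r F L,
          beta (tr r L) (insert p X) * (beta (con r X) (F \ X) * mc r E F * f (E \ F)) := by
      refine sum_comm' ?_
      intro X F
      simp only [mem_filter]
      constructor
      · rintro ⟨a, b, c, d⟩
        exact ⟨(XX_res hr L b X).2 ⟨a, c⟩, b, d⟩
      · rintro ⟨a, b, d⟩
        have h2 := (XX_res hr L b X).1 a
        exact ⟨h2.1, b, h2.2, d⟩
    have h2 : ∑ X ∈ XX r E L, beta (tr r L) (insert p X) *
        ∑ F ∈ (fl r E).filter (fun F => X ⊆ F ∧ L ⊆ F),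
          beta (con r X) (F \ X) * mc r E F * f (E \ F)
        = ∑ X ∈ XX r E L, ∑ F ∈ (fl r E).filter (fun F => X ⊆ F ∧ L ⊆ F),
          beta (tr r L) (insert p X) * (beta (con r X) (F \ X) * mc r E F * f (E \ F)) :=
      sum_congr rfl fun X _ => mul_sum _ _ _
    rw [h2, h1]
    refine sum_congr rfl fun F _ => ?_
    rw [sum_mul, sum_mul]
    refine sum_congr rfl fun X _ => ?_
    ring
  -- step 7
  have h7 := hS7 α r E L p f hC hIH hf
  have h7b : (((hy r L p).card : ℤ) - 1) *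
        ∑ F ∈ (fl r E).filter (fun F => L ⊆ F), beta (tr r L) F * mc r E F * f (E \ F)
      ≤ (((hy r L p).card : ℤ) - 1) * ∑ G ∈ T1 r E L, mu r G * f G := by
    refine mul_le_mul_of_nonneg_left h7 ?_
    have : (1 : ℤ) ≤ ((hy r L p).card : ℤ) := by exact_mod_cast hk
    linarith
  -- the coefficient
  have h8 : ∑ F ∈ (fl r E).filter (fun F => L ⊆ F), kappa r F L p * mc r E F * f (E \ F)
      = (((hy r L p).card : ℤ) - 1) *
          ∑ F ∈ (fl r E).filter (fun F => L ⊆ F), beta (tr r L) F * mc r E F * f (E \ F)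
        + ∑ F ∈ (fl r E).filter (fun F => L ⊆ F),
          (∑ X ∈ XX r F L, beta (tr r L) (insert p X) * beta (con r X) (F \ X))
            * mc r E F * f (E \ F) := by
    rw [mul_sum, ← sum_add_distrib]
    refine sum_congr rfl fun F _ => ?_
    unfold kappa
    ring
  rw [h8]
  linarith

end Pool.Agent.K7.H93.GGKAP
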