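import Mathlib

/-! Analysis on an interval for PD job ON2 (MP_7504ef_an), first part. -/

set_option autoImplicit false

noncomputable section

namespace Pool.Agent.K7.H93.PDON2

open MeasureTheory Filter Topology Set
open scoped ContDiff

variable {a b : ℝ}

theorem tri_int (κ : Measure ℝ) [SFinite κ] (q h : ℝ → ℝ) (hq : IntegrableOn q (Ioo a b) κ)
    (hh : IntegrableOn h (Ioo a b)) :
    Integrable (fun p : ℝ × ℝ => if p.2 ≤ p.1 then h p.1 * q p.2 else 0)
      ((volume.restrict (Ioo a b)).prod (κ.restrict (Ioo a b))) := by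
  have h1 : Integrable (fun p : ℝ × ℝ => h p.1 * q p.2)
      ((volume.restrict (Ioo a b)).prod (κ.restrict (Ioo a b))) := Integrable.mul_prod hh hq
  have e : (fun p : ℝ × ℝ => if p.2 ≤ p.1 then h p.1 * q p.2 else 0) =
      {p : ℝ × ℝ | p.2 ≤ p.1}.indicator (fun p => h p.1 * q p.2) := by
    funext p
    simp only [indicator, mem_ofPred_eq]
  rw [e]
  exact h1.indicator (measurableSet_le measurable_snd measurable_fst)

/-- Fubini on a triangle. -/
theorem tri (κ : Measure ℝ) [SFinite κ] (q h : ℝ → ℝ) (hq : IntegrableOn q (Ioo a b) κ)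
    (hh : IntegrableOn h (Ioo a b)) :
    ∫ s in Ioo a b, (∫ y in Ioo a b, (if y ≤ s then q y else 0) ∂κ) * h s =
      ∫ y in Ioo a b, q y * (∫ s in Ioo a b, if y ≤ s then h s else 0) ∂κ := by
  have h3 := integral_integral_swap (f := fun s y => if y ≤ s then h s * q y else 0)
    (tri_int κ q h hq hh)
  have e1 : ∀ s : ℝ, (∫ y in Ioo a b, (if y ≤ s then q y else 0) ∂κ) * h s =
      ∫ y in Ioo a b, (if y ≤ s then h s * q y else 0) ∂κ := by
    intro s
    rw [← integral_mul_const]
    congr 1
    funext y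
    split_ifs
    · ring
    · ring
  have e2 : ∀ y : ℝ, q y * (∫ s in Ioo a b, if y ≤ s then h s else 0) =
      ∫ s in Ioo a b, (if y ≤ s then h s * q y else 0) := by
    intro y
    rw [← integral_const_mul]
    congr 1
    funext s
    split_ifs
    · ring
    · ring
  simp only [e1, e2]
  exact h3

theorem tri_left (κ : Measure ℝ) [SFinite κ] (q : ℝ → ℝ) (hq : IntegrableOn q (Ioo a b) κ) :
    IntegrableOn (fun s => ∫ y in Ioo a b, (if y ≤ s then q y else 0) ∂κ) (Ioo a b) := by
  have h1 := (tri_int κ q (fun _ => 1) hq (integrableOn_const (by simp) (by simp))).integral_prod_left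
  refine h1.congr (ae_of_all _ fun s => ?_)
  simp only [one_mul]

theorem tail {H : ℝ → ℝ} (hH : ContDiff ℝ 1 H) {y : ℝ} (hy : y ∈ Ioo a b) :
    ∫ s in Ioo a b, (if y ≤ s then deriv H s else 0) = H b - H y := by
  have e : (fun s => if y ≤ s then deriv H s else 0) = (Ici y).indicator (deriv H) := by
    funext s
    simp only [indicator, mem_Ici]
  rw [e, setIntegral_indicator measurableSet_Ici]
  have e2 : Ioo a b ∩ Ici y = Ico y b := by
    ext s
    simp only [mem_inter_iff, mem_Ioo, mem_Ici, mem_Ico]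
    constructor
    · rintro ⟨⟨_, h2⟩, h3⟩
      exact ⟨h3, h2⟩
    · rintro ⟨h1, h2⟩
      exact ⟨⟨lt_of_lt_of_le hy.1 h1, h2⟩, h1⟩
  rw [e2, integral_Ico_eq_integral_Ioo, ← integral_Ioc_eq_integral_Ioo,
    ← intervalIntegral.integral_of_le hy.2.le]
  exact intervalIntegral.integral_deriv_eq_sub
    (fun x _ => (hH.differentiable (by norm_num)).differentiableAt)
    ((hH.continuous_deriv (by norm_num)).intervalIntegrable _ _)

theorem full {H : ℝ → ℝ} (hH : ContDiff ℝ 1 H) (hab : a < b) :
    ∫ s in Ioo a b, deriv H s = H b - H a := by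
  rw [← integral_Ioc_eq_integral_Ioo, ← intervalIntegral.integral_of_le hab.le]
  exact intervalIntegral.integral_deriv_eq_sub
    (fun x _ => (hH.differentiable (by norm_num)).differentiableAt)
    ((hH.continuous_deriv (by norm_num)).intervalIntegrable _ _)

theorem cont_int {h : ℝ → ℝ} (hh : Continuous h) : IntegrableOn h (Ioo a b) :=
  (hh.integrableOn_Icc (a := a) (b := b)).mono_set Ioo_subset_Icc_self

/-- the primitive of `g` -/
def prim (a b : ℝ) (g : ℝ → ℝ) (s : ℝ) : ℝ := ∫ y in Ioo a b, (if y ≤ s then g y else 0)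

/-- the solution of the Dirichlet problem with a finite measure on an interval -/
theorem sol (hab : a < b) (μ : Measure ℝ) [IsFiniteMeasure μ] :
    ∃ g : ℝ → ℝ, ∃ M : ℝ, (∀ s, |g s| ≤ M) ∧ IntegrableOn g (Ioo a b) ∧ ∫ s in Ioo a b, g s = 0 ∧
      ∀ z : ℝ → ℝ, ContDiff ℝ 2 z → z a = 0 → z b = 0 →
        -∫ s in Ioo a b, prim a b g s * deriv (deriv z) s = ∫ s in Ioo a b, z s ∂μ := by
  set F : ℝ → ℝ := fun s => ∫ y in Ioo a b, (if y ≤ s then (1 : ℝ) else 0) ∂μ with hF
  have hFi : IntegrableOn F (Ioo a b) := tri_left μ (fun _ => 1) (integrable_const _)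
  have hFb : ∀ s, |F s| ≤ μ.real (Ioo a b) := by
    intro s
    rw [hF]
    have h1 := norm_setIntegral_le_of_norm_le_const (μ := μ) (s := Ioo a b) (C := 1)
      (f := fun y => if y ≤ s then (1 : ℝ) else 0) (measure_lt_top _ _) (fun y _ => by
        split_ifs <;> simp)
    simpa using h1
  set C : ℝ := (∫ s in Ioo a b, F s) / (b - a) with hC
  have hba : b - a ≠ 0 := (sub_pos.2 hab).ne'
  have hci : IntegrableOn (fun _ : ℝ => C) (Ioo a b) := integrableOn_const (by simp) (by simp)
  refine ⟨fun s => C - F s, |C| + μ.real (Ioo a b), ?_, hci.sub hFi, ?_, ?_⟩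
  · intro s
    exact (abs_sub _ _).trans (add_le_add le_rfl (hFb s))
  · rw [integral_sub hci hFi]
    simp only [integral_const, hC]
    simp [hab.le]
    field_simp
    ring
  · intro z hz hza hzb
    have hz1 : ContDiff ℝ 1 z := hz.of_le (by norm_num)
    have hdz : ContDiff ℝ 1 (deriv z) := by
      have h2 : ContDiff ℝ (1 + 1) z := by
        have : (1 + 1 : WithTop ℕ∞) = 2 := by norm_num
        rw [this]
        exact hz
      exact (contDiff_succ_iff_deriv.1 h2).2.2
    have hgi : IntegrableOn (fun s => C - F s) (Ioo a b) := hci.sub hFi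
    have h1 := tri (a := a) (b := b) volume (fun s => C - F s) (deriv (deriv z)) hgi
      (cont_int (hdz.continuous_deriv (by norm_num)))
    have h2 : ∫ y in Ioo a b, (C - F y) * (∫ s in Ioo a b, if y ≤ s then deriv (deriv z) s else 0) =
        ∫ y in Ioo a b, (C - F y) * (deriv z b - deriv z y) := by
      refine setIntegral_congr_fun measurableSet_Ioo fun y hy => ?_
      simp only [tail hdz hy]
    have hdzc : Continuous (deriv z) := hdz.continuous
    have hFz : IntegrableOn (fun y => F y * deriv z y) (Ioo a b) :=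
      hFi.mul_continuousOn_of_subset (hdzc.continuousOn (s := Icc a b)) measurableSet_Ioo
        isCompact_Icc Ioo_subset_Icc_self
    have hgz : ∫ s in Ioo a b, (C - F s) = 0 := by
      rw [integral_sub hci hFi]
      simp only [integral_const, hC]
      simp [hab.le]
      field_simp
      ring
    have h3 : ∫ y in Ioo a b, (C - F y) * (deriv z b - deriv z y) =
        ∫ y in Ioo a b, F y * deriv z y := by
      have e : ∀ y, (C - F y) * (deriv z b - deriv z y) =
          (C - F y) * deriv z b - C * deriv z y + F y * deriv z y := fun y => by ring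
      simp only [e]
      have i1 : IntegrableOn (fun y => (C - F y) * deriv z b) (Ioo a b) := hgi.mul_const _
      have i2 : IntegrableOn (fun y => C * deriv z y) (Ioo a b) := (cont_int hdzc).const_mul _
      have i3 : IntegrableOn (fun y => (C - F y) * deriv z b - C * deriv z y) (Ioo a b) := i1.sub i2
      rw [integral_add i3 hFz, integral_sub i1 i2, integral_mul_const,
        integral_const_mul, hgz, full hz1 hab, hza, hzb]
      ring
    have h4 := tri (a := a) (b := b) μ (fun _ => 1) (deriv z) (integrable_const _) (cont_int hdzc)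
    have h5 : ∫ y in Ioo a b, (1 : ℝ) * (∫ s in Ioo a b, if y ≤ s then deriv z s else 0) ∂μ =
        ∫ y in Ioo a b, -z y ∂μ := by
      refine setIntegral_congr_fun measurableSet_Ioo fun y hy => ?_
      simp only [tail hz1 hy, hzb]
      ring
    have h6 : ∫ s in Ioo a b, F s * deriv z s = ∫ y in Ioo a b, -z y ∂μ := h4.trans h5
    have h7 : ∫ s in Ioo a b, prim a b (fun s => C - F s) s * deriv (deriv z) s =
        ∫ y in Ioo a b, -z y ∂μ := h1.trans (h2.trans (h3.trans h6))
    rw [h7, integral_neg, neg_neg]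

/-- smooth approximation in `L¹(a, b)` with support in `(a, b)` -/
theorem dens (hab : a < b) {g : ℝ → ℝ} {M : ℝ} (hM : ∀ s, |g s| ≤ M) (hg : IntegrableOn g (Ioo a b))
    {ε : ℝ} (hε : 0 < ε) :
    ∃ (p : ℝ → ℝ) (r : ℝ), r < (b - a) / 2 ∧ ContDiff ℝ ∞ p ∧
      (∀ s, r < |s - (a + b) / 2| → p s = 0) ∧ ∫ s in Ioo a b, |p s - g s| ≤ ε := by
  have hM0 : 0 ≤ M := (abs_nonneg _).trans (hM 0)
  have hmem : MemLp g 1 (volume.restrict (Ioo a b)) := memLp_one_iff_integrable.2 hg
  obtain ⟨h, hhc, hhs, hh⟩ := hmem.exist_eLpNorm_sub_le (by simp) le_rfl (half_pos hε)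
  have hhi : IntegrableOn h (Ioo a b) := cont_int hhs.continuous
  have h1 : ∫ s in Ioo a b, |h s - g s| ≤ ε / 2 := by
    have e1 : eLpNorm (g - h) 1 (volume.restrict (Ioo a b)) =
        ENNReal.ofReal (∫ s in Ioo a b, |h s - g s|) := by
      have i0 : IntegrableOn (fun s => |h s - g s|) (Ioo a b) := (hhi.sub hg).abs
      rw [eLpNorm_one_eq_lintegral_enorm, ofReal_integral_eq_lintegral_ofReal i0
        (ae_of_all _ fun s => abs_nonneg _)]
      refine lintegral_congr fun s => ?_
      rw [Real.enorm_eq_ofReal_abs, Pi.sub_apply, abs_sub_comm]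
    rw [e1] at hh
    exact (ENNReal.ofReal_le_ofReal_iff (by positivity)).1 hh
  -- the cutoff
  set δ : ℝ := min (ε / (4 * (M + 1))) ((b - a) / 4) with hδ
  have hba : 0 < b - a := sub_pos.2 hab
  have hδ0 : 0 < δ := lt_min (by positivity) (by positivity)
  have hδ1 : δ ≤ (b - a) / 4 := min_le_right _ _
  have hδ2 : δ ≤ ε / (4 * (M + 1)) := min_le_left _ _
  let χ : ContDiffBump ((a + b) / 2) := ⟨(b - a) / 2 - δ, (b - a) / 2 - δ / 2, by linarith, by linarith⟩
  have hχ1 : ∀ s, |s - (a + b) / 2| ≤ (b - a) / 2 - δ → χ s = 1 := fun s hs =>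
    χ.one_of_mem_closedBall (by rw [Metric.mem_closedBall, Real.dist_eq]; exact hs)
  have hχ0 : ∀ s, (b - a) / 2 - δ / 2 < |s - (a + b) / 2| → χ s = 0 := fun s hs =>
    χ.zero_of_le_dist (by rw [Real.dist_eq]; exact hs.le)
  have hχs : ContDiff ℝ ∞ χ := χ.contDiff
  have hχi : IntegrableOn χ (Ioo a b) := cont_int hχs.continuous
  have hone : IntegrableOn (fun _ : ℝ => (1 : ℝ)) (Ioo a b) := integrableOn_const (by simp) (by simp)
  -- the integral of `1 - χ`
  have h2 : ∫ s in Ioo a b, (1 - χ s) ≤ 2 * δ := by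
    rw [integral_sub hone hχi]
    have e1 : ∫ s in Ioo a b, (1 : ℝ) = b - a := by simp [hab.le]
    have e2 : 2 * ((b - a) / 2 - δ) ≤ ∫ s in Ioo a b, χ s := by
      have e3 : Metric.closedBall ((a + b) / 2) ((b - a) / 2 - δ) ⊆ Ioo a b := by
        intro s hs
        rw [Metric.mem_closedBall, Real.dist_eq, abs_le] at hs
        constructor <;> linarith [hs.1, hs.2]
      calc 2 * ((b - a) / 2 - δ) = ∫ s in Metric.closedBall ((a + b) / 2) ((b - a) / 2 - δ), (1 : ℝ) := by
            rw [setIntegral_const, Real.volume_real_closedBall (by linarith)]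
            simp
        _ = ∫ s in Metric.closedBall ((a + b) / 2) ((b - a) / 2 - δ), χ s := by
            refine setIntegral_congr_fun Metric.isClosed_closedBall.measurableSet fun s hs => ?_
            rw [Metric.mem_closedBall, Real.dist_eq] at hs
            simp only [hχ1 s hs]
        _ ≤ ∫ s in Ioo a b, χ s := by
            refine setIntegral_mono_set hχi (ae_of_all _ fun s => χ.nonneg) ?_
            exact e3.eventuallyLE
    rw [e1]
    linarith
  refine ⟨fun s => χ s * h s, (b - a) / 2 - δ / 2, by linarith, hχs.mul hhs, fun s hs => by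
    simp only [hχ0 s hs, zero_mul], ?_⟩
  have h3 : ∫ s in Ioo a b, |χ s * h s - g s| ≤ ∫ s in Ioo a b, (|h s - g s| + M * (1 - χ s)) := by
    refine integral_mono_of_nonneg (ae_of_all _ fun s => abs_nonneg _)
      ((hhi.sub hg).abs.add ((hone.sub hχi).const_mul M)) (ae_of_all _ fun s => ?_)
    have e1 : χ s * h s - g s = χ s * (h s - g s) - (1 - χ s) * g s := by ring
    simp only
    rw [e1]
    refine (abs_sub _ _).trans ?_
    rw [abs_mul, abs_mul, abs_of_nonneg (χ.nonneg : 0 ≤ χ s),
      abs_of_nonneg (sub_nonneg.2 (χ.le_one : χ s ≤ 1))]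
    have e2 : χ s * |h s - g s| ≤ |h s - g s| := mul_le_of_le_one_left (abs_nonneg _) χ.le_one
    have e3 : (1 - χ s) * |g s| ≤ M * (1 - χ s) := by
      rw [mul_comm M]
      exact mul_le_mul_of_nonneg_left (hM s) (sub_nonneg.2 χ.le_one)
    linarith
  have h4 : ∫ s in Ioo a b, (|h s - g s| + M * (1 - χ s)) =
      (∫ s in Ioo a b, |h s - g s|) + M * ∫ s in Ioo a b, (1 - χ s) := by
    have i1 : IntegrableOn (fun s => |h s - g s|) (Ioo a b) := (hhi.sub hg).abs
    have i2 : IntegrableOn (fun s => M * (1 - χ s)) (Ioo a b) := (hone.sub hχi).const_mul M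
    rw [integral_add i1 i2, integral_const_mul]
  have h5 : M * (2 * δ) ≤ ε / 2 := by
    have : (M + 1) * (2 * δ) ≤ ε / 2 := by
      calc (M + 1) * (2 * δ) ≤ (M + 1) * (2 * (ε / (4 * (M + 1)))) := by gcongr
        _ = ε / 2 := by field_simp; ring
    nlinarith
  have h6 : M * ∫ s in Ioo a b, (1 - χ s) ≤ M * (2 * δ) := mul_le_mul_of_nonneg_left h2 hM0
  linarith

/-- approximation of the primitive of `g` by functions in `C_c^∞(a, b)` -/
theorem appr (hab : a < b) {g : ℝ → ℝ} {M : ℝ} (hM : ∀ s, |g s| ≤ M) (hg : IntegrableOn g (Ioo a b))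
    (hg0 : ∫ s in Ioo a b, g s = 0) {ε : ℝ} (hε : 0 < ε) :
    ∃ (φ : ℝ → ℝ) (r : ℝ), r < (b - a) / 2 ∧ ContDiff ℝ ∞ φ ∧
      (∀ s, r < |s - (a + b) / 2| → φ s = 0) ∧ (∫ s in Ioo a b, |deriv φ s - g s| ≤ ε) ∧
      ∫ s in Ioo a b, |φ s - prim a b g s| ≤ (b - a) * ε := by
  have hba : 0 < b - a := sub_pos.2 hab
  obtain ⟨p0, r0, hr0, hp0, hp0z, hp0e⟩ := dens hab hM hg (half_pos hε)
  -- the bump function of integral one
  let ψ : ContDiffBump ((a + b) / 2) := ⟨(b - a) / 8, (b - a) / 4, by linarith, by linarith⟩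
  set ρ : ℝ → ℝ := ψ.normed volume with hρ
  have hρs : ContDiff ℝ ∞ ρ := ψ.contDiff_normed
  have hρ0 : ∀ s, (b - a) / 4 < |s - (a + b) / 2| → ρ s = 0 := by
    intro s hs
    have : s ∉ Function.support ρ := by
      rw [hρ, ψ.support_normed_eq]
      rw [Metric.mem_ball, Real.dist_eq]
      exact not_lt.2 hs.le
    simpa using this
  have hρn : ∀ s, 0 ≤ ρ s := fun s => ψ.nonneg_normed s
  have hρ1 : ∫ s in Ioo a b, ρ s = 1 := by
    rw [setIntegral_eq_integral_of_forall_compl_eq_zero, ψ.integral_normed]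
    intro s hs
    apply hρ0
    by_contra hcon
    push Not at hcon
    rw [abs_le] at hcon
    apply hs
    constructor <;> linarith [hcon.1, hcon.2]
  have hp0i : IntegrableOn p0 (Ioo a b) := cont_int hp0.continuous
  have hρi : IntegrableOn ρ (Ioo a b) := cont_int hρs.continuous
  set I : ℝ := ∫ s in Ioo a b, p0 s with hI
  have hIe : |I| ≤ ε / 2 := by
    have : I = ∫ s in Ioo a b, (p0 s - g s) := by
      rw [integral_sub hp0i hg, hg0, sub_zero]
    rw [this]
    exact (abs_integral_le_integral_abs).trans hp0e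
  set p : ℝ → ℝ := fun s => p0 s - I * ρ s with hp
  have hps : ContDiff ℝ ∞ p := hp0.sub (contDiff_const.mul hρs)
  have hpi : IntegrableOn p (Ioo a b) := cont_int hps.continuous
  have hpc : Continuous p := hps.continuous
  have hpint : ∫ s in Ioo a b, p s = 0 := by
    rw [hp, integral_sub hp0i (hρi.const_mul I), integral_const_mul, hρ1, ← hI]
    ring
  set r : ℝ := max r0 ((b - a) / 4) with hr
  have hrlt : r < (b - a) / 2 := max_lt hr0 (by linarith)
  have hpz : ∀ s, r < |s - (a + b) / 2| → p s = 0 := by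
    intro s hs
    simp only [hp, hp0z s ((le_max_left _ _).trans_lt hs), hρ0 s ((le_max_right _ _).trans_lt hs)]
    ring
  have hpe : ∫ s in Ioo a b, |p s - g s| ≤ ε := by
    have i1 : IntegrableOn (fun s => |p0 s - g s|) (Ioo a b) := (hp0i.sub hg).abs
    have i2 : IntegrableOn (fun s => |I| * ρ s) (Ioo a b) := hρi.const_mul _
    have h1 : ∫ s in Ioo a b, |p s - g s| ≤ ∫ s in Ioo a b, (|p0 s - g s| + |I| * ρ s) := by
      refine integral_mono_of_nonneg (ae_of_all _ fun s => abs_nonneg _) (i1.add i2)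
        (ae_of_all _ fun s => ?_)
      have e1 : p s - g s = (p0 s - g s) - I * ρ s := by simp only [hp]; ring
      simp only
      rw [e1]
      refine (abs_sub _ _).trans ?_
      rw [abs_mul, abs_of_nonneg (hρn s)]
    rw [integral_add i1 i2, integral_const_mul, hρ1] at h1
    linarith
  -- the primitive
  set φ : ℝ → ℝ := fun s => ∫ y in a..s, p y with hφ
  have hder : ∀ s, HasDerivAt φ (p s) s := fun s =>
    intervalIntegral.integral_hasDerivAt_right (hpc.intervalIntegrable _ _)
      hpc.stronglyMeasurable.stronglyMeasurableAtFilter hpc.continuousAt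
  have hdφ : deriv φ = p := funext fun s => (hder s).deriv
  have hφs : ContDiff ℝ ∞ φ := by
    rw [contDiff_infty_iff_deriv, hdφ]
    exact ⟨fun s => (hder s).differentiableAt, hps⟩
  have hzero : ∀ c d : ℝ, (∀ s ∈ uIcc c d, r < |s - (a + b) / 2| ∨ False) →
      ∫ y in c..d, p y = 0 := by
    intro c d h
    rw [intervalIntegral.integral_congr (g := fun _ => (0 : ℝ)) (fun s hs => hpz s (by simpa using h s hs))]
    simp
  have hab0 : ∫ y in a..b, p y = 0 := by
    rw [intervalIntegral.integral_of_le hab.le, integral_Ioc_eq_integral_Ioo, hpint]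
  have hφ0 : ∀ s, r < |s - (a + b) / 2| → φ s = 0 := by
    intro s hs
    rcases lt_abs.1 hs with h | h
    · have h1 : φ s = (∫ y in a..b, p y) + ∫ y in b..s, p y :=
        (intervalIntegral.integral_add_adjacent_intervals (hpc.intervalIntegrable _ _)
          (hpc.intervalIntegrable _ _)).symm
      rw [h1, hab0, hzero, add_zero]
      intro y hy
      left
      rw [mem_uIcc] at hy
      rw [lt_abs]
      left
      rcases hy with hy | hy <;> linarith [hy.1, hy.2]
    · apply hzero
      intro y hy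
      left
      rw [mem_uIcc] at hy
      rw [lt_abs]
      right
      rcases hy with hy | hy <;> linarith [hy.1, hy.2]
  refine ⟨φ, r, hrlt, hφs, hφ0, ?_, ?_⟩
  · rw [hdφ]
    exact hpe
  · have hpt : ∀ s ∈ Ioo a b, |φ s - prim a b g s| ≤ ε := by
      intro s hs
      have e1 : φ s = ∫ y in Ioo a b, (if y ≤ s then p y else 0) := by
        have e : (fun y => if y ≤ s then p y else 0) = (Iic s).indicator p := by
          funext y
          simp only [indicator, mem_Iic]
        rw [e, setIntegral_indicator measurableSet_Iic]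
        have e2 : Ioo a b ∩ Iic s = Ioc a s := by
          ext y
          simp only [mem_inter_iff, mem_Ioo, mem_Iic, mem_Ioc]
          constructor
          · rintro ⟨⟨h1, _⟩, h3⟩
            exact ⟨h1, h3⟩
          · rintro ⟨h1, h2⟩
            exact ⟨⟨h1, lt_of_le_of_lt h2 hs.2⟩, h2⟩
        rw [e2, hφ]
        exact intervalIntegral.integral_of_le hs.1.le
      have hif : ∀ q : ℝ → ℝ, IntegrableOn q (Ioo a b) →
          IntegrableOn (fun y => if y ≤ s then q y else 0) (Ioo a b) := by
        intro q hq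
        have e : (fun y => if y ≤ s then q y else 0) = (Iic s).indicator q := by
          funext y
          simp only [indicator, mem_Iic]
        rw [e]
        exact hq.indicator measurableSet_Iic
      unfold prim
      rw [e1, ← integral_sub (hif p hpi) (hif g hg)]
      refine (abs_integral_le_integral_abs).trans (le_trans ?_ hpe)
      refine integral_mono_of_nonneg (ae_of_all _ fun y => abs_nonneg _) (hpi.sub hg).abs
        (ae_of_all _ fun y => ?_)
      simp only []
      split_ifs
      · exact le_rfl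
      · simp
    have h1 := norm_setIntegral_le_of_norm_le_const (μ := volume) (s := Ioo a b) (C := ε)
      (f := fun s => |φ s - prim a b g s|) (by simp) (fun s hs => by
        rw [Real.norm_eq_abs, abs_abs]
        exact hpt s hs)
    rw [Real.volume_real_Ioo_of_le hab.le] at h1
    calc _ ≤ _ := le_abs_self _
      _ ≤ _ := h1
      _ = (b - a) * ε := mul_comm _ _

end Pool.Agent.K7.H93.PDON2
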