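import Pool.Agent.K7.H81.PD.Stm2
import Pool.Agent.K7.H93.PD_ON2A

/-! Job ON2 of project PD (MP_7504ef_an): the Dirichlet problem with a finite measure on an interval. -/

set_option autoImplicit false

noncomputable section

namespace Pool.Agent.K7.H93.PDON2

open MeasureTheory Filter Topology Set
open scoped ContDiff
open Pool.Agent.K7.H81.PD

variable {a b : ℝ}

/-- the coordinate -/
def e : E 1 ≃ₜ ℝ :=
  (EuclideanSpace.equiv (Fin 1) ℝ).toHomeomorph.trans (Homeomorph.funUnique (Fin 1) ℝ)

theorem e_apply (x : E 1) : e x = x 0 := rfl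

theorem e_mp : MeasurePreserving (e : E 1 → ℝ) volume volume :=
  (MeasureTheory.volume_preserving_funUnique (Fin 1) ℝ).comp (PiLp.volume_preserving_ofLp (Fin 1))

theorem Itv_eq : Itv a b = e ⁻¹' Ioo a b := by
  ext x
  simp [Itv, e_apply]

theorem int_m (m : Measure (E 1)) (f : ℝ → ℝ) :
    ∫ x in Itv a b, f (x 0) ∂m = ∫ t in Ioo a b, f t ∂(m.map e) := by
  rw [Itv_eq]
  exact (e.measurableEmbedding.setIntegral_map f (Ioo a b)).symm

theorem int_vol (f : ℝ → ℝ) : ∫ x in Itv a b, f (x 0) = ∫ t in Ioo a b, f t := by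
  rw [int_m, e_mp.map_eq]

theorem intble {f : ℝ → ℝ} (hf : IntegrableOn f (Ioo a b)) :
    IntegrableOn (fun x : E 1 => f (x 0)) (Itv a b) := by
  rw [Itv_eq]
  exact (e_mp.integrableOn_comp_preimage e.measurableEmbedding).2 hf

theorem pd_comp {f : ℝ → ℝ} (x : E 1) (hf : DifferentiableAt ℝ f (x 0)) :
    pd 0 (fun x : E 1 => f (x 0)) x = deriv f (x 0) := by
  have h1 : HasFDerivAt (fun x : E 1 => x 0) (EuclideanSpace.proj 0 : E 1 →L[ℝ] ℝ) x :=
    (EuclideanSpace.proj 0 : E 1 →L[ℝ] ℝ).hasFDerivAt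
  have h2 := hf.hasDerivAt.comp_hasFDerivAt x h1
  unfold pd
  have h3 : (fun x : E 1 => f (x 0)) = f ∘ (fun x : E 1 => x 0) := rfl
  rw [h3, h2.fderiv]
  simp

theorem lap_comp {f : ℝ → ℝ} (hf : ContDiff ℝ 2 f) (x : E 1) :
    lap (fun x : E 1 => f (x 0)) x = deriv (deriv f) (x 0) := by
  have h1 : ContDiff ℝ 1 (deriv f) := by
    have h2 : ContDiff ℝ (1 + 1) f := by
      have : (1 + 1 : WithTop ℕ∞) = 2 := by norm_num
      rw [this]
      exact hf
    exact (contDiff_succ_iff_deriv.1 h2).2.2
  unfold lap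
  rw [Fin.sum_univ_one]
  have h3 : pd 0 (fun x : E 1 => f (x 0)) = fun x : E 1 => deriv f (x 0) := by
    funext y
    exact pd_comp y (hf.differentiable (by norm_num)).differentiableAt
  rw [h3]
  exact pd_comp x (h1.differentiable (by norm_num)).differentiableAt

theorem smooth_comp {f : ℝ → ℝ} (hf : ContDiff ℝ ∞ f) : ContDiff ℝ ∞ (fun x : E 1 => f (x 0)) :=
  hf.comp (EuclideanSpace.proj 0 : E 1 →L[ℝ] ℝ).contDiff

theorem vec (x : E 1) : x 0 • (EuclideanSpace.single 0 1 : E 1) = x := by
  ext i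
  fin_cases i
  simp

theorem t : StOn2 := by
  intro a b hab m hm
  have : IsFiniteMeasure (m.map e) := by infer_instance
  obtain ⟨g, M, hM, hg, hg0, hsol⟩ := sol hab (m.map e)
  refine ⟨fun x => prim a b g (x 0), ⟨intble (tri_left volume g hg), ?_⟩, ?_⟩
  · have hk : ∀ k : ℕ, 0 < 1 / ((k : ℝ) + 1) := fun k => by positivity
    choose φ r hr hφ hφ0 hφ1 hφ2 using fun k : ℕ => appr hab hM hg hg0 (hk k)
    refine ⟨fun _ x => g (x 0), fun k x => φ k (x 0), ?_, fun _ => intble hg, ?_, ?_⟩
    · intro k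
      have hK : IsCompact (e ⁻¹' Metric.closedBall ((a + b) / 2) (r k)) :=
        e.isCompact_preimage.2 (isCompact_closedBall _ _)
      have hsupp : ∀ x, x ∉ e ⁻¹' Metric.closedBall ((a + b) / 2) (r k) → φ k (x 0) = 0 := by
        intro x hx
        apply hφ0
        rw [mem_preimage, Metric.mem_closedBall, Real.dist_eq, e_apply] at hx
        exact not_le.1 hx
      refine ⟨smooth_comp (hφ k), HasCompactSupport.intro hK hsupp, ?_⟩
      refine (closure_minimal ?_ hK.isClosed).trans ?_
      · intro x hx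
        by_contra hcon
        exact hx (hsupp x hcon)
      · rw [Itv_eq]
        apply preimage_mono
        intro s hs
        rw [Metric.mem_closedBall, Real.dist_eq, abs_le] at hs
        have := hr k
        constructor <;> linarith [hs.1, hs.2]
    · have h1 : Tendsto (fun k : ℕ => (b - a) * (1 / ((k : ℝ) + 1))) atTop (𝓝 ((b - a) * 0)) :=
        tendsto_one_div_add_atTop_nhds_zero_nat.const_mul _
      rw [mul_zero] at h1
      refine squeeze_zero (fun k => integral_nonneg fun x => abs_nonneg _) (fun k => ?_) h1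
      rw [int_vol (fun s => |φ k s - prim a b g s|)]
      exact hφ2 k
    · intro i
      fin_cases i
      refine squeeze_zero (fun k => integral_nonneg fun x => abs_nonneg _) (fun k => ?_)
        tendsto_one_div_add_atTop_nhds_zero_nat
      have h1 : ∀ x : E 1, pd 0 (fun x : E 1 => φ k (x 0)) x = deriv (φ k) (x 0) := fun x =>
        pd_comp x ((hφ k).differentiable (by simp)).differentiableAt
      have h2 := int_vol (a := a) (b := b) (fun s => |deriv (φ k) s - g s|)
      simp only [Fin.zero_eta, h1]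
      rw [h2]
      exact hφ1 k
  · intro ζ hζ
    set z : ℝ → ℝ := fun t => ζ (t • (EuclideanSpace.single 0 1 : E 1)) with hz
    have hzs : ContDiff ℝ ∞ z := hζ.1.comp (contDiff_id.smul contDiff_const)
    have hζz : ζ = fun x : E 1 => z (x 0) := by
      funext x
      simp only [hz, vec]
    have hfr : ∀ c ∈ frontier (Ioo a b), z c = 0 := by
      intro c hc
      apply hζ.2
      rw [Itv_eq, ← e.preimage_frontier, mem_preimage, e_apply]
      simpa using hc
    rw [frontier_Ioo hab] at hfr
    have h1 := hsol z (by exact_mod_cast contDiff_infty.1 hzs 2) (hfr a (by simp)) (hfr b (by simp))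
    have h2 : ∀ x, lap ζ x = deriv (deriv z) (x 0) := by
      intro x
      rw [hζz]
      exact lap_comp (by exact_mod_cast contDiff_infty.1 hzs 2) x
    simp only [h2]
    rw [int_vol (fun s => prim a b g s * deriv (deriv z) s), h1, ← int_m, hζz]

end Pool.Agent.K7.H93.PDON2
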