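import Pool.Agent.K7.H83.RT.Stm

set_option autoImplicit false

/-! Project RT (MP_f9e5d9_nt), job LIM. -/

namespace Pool.Agent.K7.H93.RTLIM

open Filter Topology Pool.Agent.K7.H83.RT

theorem h_le {n : ℕ} (S : Finset ℕ) (h1 : S.card = n) (h2 : ∀ a ∈ S, 0 < a) :
    h n ≤ (ratios S).card :=
  Nat.sInf_le ⟨S, h1, h2, rfl⟩

theorem exists_h (n : ℕ) :
    ∃ S : Finset ℕ, S.card = n ∧ (∀ a ∈ S, 0 < a) ∧ (ratios S).card = h n := by
  have hne : {m : ℕ | ∃ S : Finset ℕ, S.card = n ∧ (∀ a ∈ S, 0 < a) ∧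
      (ratios S).card = m}.Nonempty := by
    refine ⟨(ratios (Finset.Icc 1 n)).card, Finset.Icc 1 n, ?_, ?_, rfl⟩
    · simp
    · intro a ha
      exact (Finset.mem_Icc.1 ha).1
  exact Nat.sInf_mem hne

theorem ratios_mono {S T : Finset ℕ} (hST : T ⊆ S) : ratios T ⊆ ratios S :=
  Finset.image_subset_image (Finset.product_subset_product hST hST)

theorem h_mono {n m : ℕ} (hnm : n ≤ m) : h n ≤ h m := by
  obtain ⟨S, h1, h2, h3⟩ := exists_h m
  obtain ⟨T, hT, hTc⟩ := Finset.exists_subset_card_eq (h1 ▸ hnm : n ≤ S.card)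
  rw [← h3]
  exact (h_le T hTc fun a ha => h2 a (hT ha)).trans (Finset.card_le_card (ratios_mono hT))

theorem le_sq (n : ℕ) : n ≤ h n * h n := by
  obtain ⟨S, h1, h2, h3⟩ := exists_h n
  rcases S.eq_empty_or_nonempty with hS | ⟨a, ha⟩
  · have : n = 0 := by rw [← h1, hS]; rfl
    rw [this]
    exact Nat.zero_le _
  · rw [← h3, ← h1, ← Finset.card_product]
    refine Finset.card_le_card_of_injOn (fun b => (b / Nat.gcd a b, a / Nat.gcd b a)) ?_ ?_
    · intro b hb
      have hb' : b ∈ S := hb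
      simp only [Finset.coe_product, Set.mem_prod, Finset.mem_coe]
      exact ⟨Finset.mem_image.2 ⟨(a, b), Finset.mem_product.2 ⟨ha, hb'⟩, rfl⟩,
        Finset.mem_image.2 ⟨(b, a), Finset.mem_product.2 ⟨hb', ha⟩, rfl⟩⟩
    · intro b hb c hc hbc
      simp only [Prod.mk.injEq] at hbc
      obtain ⟨e1, e2⟩ := hbc
      have ha0 : 0 < a := h2 a ha
      have hb1 : Nat.gcd a b ∣ b := Nat.gcd_dvd_right a b
      have hc1 : Nat.gcd a c ∣ c := Nat.gcd_dvd_right a c
      have hb2 : Nat.gcd b a ∣ a := Nat.gcd_dvd_right b a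
      have hc2 : Nat.gcd c a ∣ a := Nat.gcd_dvd_right c a
      have e3 : Nat.gcd b a = Nat.gcd c a := by
        have k1 := Nat.div_mul_cancel hb2
        have k2 := Nat.div_mul_cancel hc2
        have k3 : 0 < a / Nat.gcd b a :=
          Nat.div_pos (Nat.le_of_dvd ha0 hb2) (Nat.gcd_pos_of_pos_right _ ha0)
        rw [← e2] at k2
        exact Nat.eq_of_mul_eq_mul_left k3 (k1.trans k2.symm)
      have e4 : Nat.gcd a b = Nat.gcd a c := by
        rw [Nat.gcd_comm a b, Nat.gcd_comm a c, e3]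
      calc b = b / Nat.gcd a b * Nat.gcd a b := (Nat.div_mul_cancel hb1).symm
        _ = c / Nat.gcd a c * Nat.gcd a c := by rw [e1, e4]
        _ = c := Nat.div_mul_cancel hc1

theorem h_pos {n : ℕ} (hn : 1 ≤ n) : 1 ≤ h n := by
  have := le_sq n
  rcases Nat.eq_zero_or_pos (h n) with h0 | h0
  · rw [h0] at this
    omega
  · exact h0

theorem upper_nat (hTR : StTR) {V T C : ℕ}
    (hc : ∃ (ι : Type) (_ : Fintype ι), ∀ B : ℕ, 2 ≤ B → ∃ A P : Finset (ι → ℤ),
      B ^ V ≤ A.card ∧ P.card ≤ C * B ^ T ∧ ∀ x ∈ A, ∀ y ∈ A, pos (fun i => y i - x i) ∈ P)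
    {n B : ℕ} (hB : 2 ≤ B) (hn : n ≤ B ^ V) : h n ≤ C * B ^ T := by
  obtain ⟨ι, hι, hc⟩ := hc
  obtain ⟨A, P, h1, h2, h3⟩ := hc B hB
  obtain ⟨S, h4, h5, h6⟩ := hTR ι A P h3
  calc h n ≤ h A.card := h_mono (hn.trans h1)
    _ ≤ (ratios S).card := h_le S h4 h5
    _ ≤ P.card := h6
    _ ≤ C * B ^ T := h2

theorem upper_real (hTR : StTR) {V T C : ℕ} (hV : 1 ≤ V)
    (hc : ∃ (ι : Type) (_ : Fintype ι), ∀ B : ℕ, 2 ≤ B → ∃ A P : Finset (ι → ℤ),
      B ^ V ≤ A.card ∧ P.card ≤ C * B ^ T ∧ ∀ x ∈ A, ∀ y ∈ A, pos (fun i => y i - x i) ∈ P)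
    {n : ℕ} (hn : 2 ≤ n) :
    Real.log (h n) ≤ Real.log C + T * Real.log 2 + (T / V : ℝ) * Real.log n := by
  have hn1 : (1 : ℝ) ≤ n := by exact_mod_cast (by omega : 1 ≤ n)
  have hn0 : (0 : ℝ) < n := by linarith
  have hV0 : (V : ℝ) ≠ 0 := by
    have : (0 : ℝ) < V := by exact_mod_cast hV
    exact this.ne'
  set x : ℝ := (n : ℝ) ^ (1 / (V : ℝ)) with hx
  have hx1 : 1 ≤ x := Real.one_le_rpow hn1 (by positivity)
  set B : ℕ := ⌊x⌋₊ + 1 with hB
  have hfl : 1 ≤ ⌊x⌋₊ := by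
    rw [Nat.one_le_floor_iff]
    exact hx1
  have hB2 : 2 ≤ B := by omega
  have hxB : x ≤ B := by
    rw [hB]
    push_cast
    exact (Nat.lt_floor_add_one x).le
  have hBx : (B : ℝ) ≤ 2 * x := by
    rw [hB]
    push_cast
    have := Nat.floor_le (by linarith : (0 : ℝ) ≤ x)
    linarith
  have hnB : n ≤ B ^ V := by
    have h1 : (n : ℝ) = x ^ V := by
      rw [hx, ← Real.rpow_natCast, ← Real.rpow_mul hn0.le, one_div, inv_mul_cancel₀ hV0,
        Real.rpow_one]
    have h2 : (n : ℝ) ≤ (B : ℝ) ^ V := by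
      rw [h1]
      exact pow_le_pow_left₀ (by linarith) hxB V
    exact_mod_cast h2
  have h3 := upper_nat hTR hc hB2 hnB
  have h4 : 1 ≤ h n := h_pos (by omega)
  have hC : 0 < C := by
    rcases Nat.eq_zero_or_pos C with h0 | h0
    · rw [h0] at h3
      omega
    · exact h0
  have hC' : (0 : ℝ) < C := by exact_mod_cast hC
  have hh : (0 : ℝ) < h n := by exact_mod_cast h4
  have h5 : (h n : ℝ) ≤ C * (2 * x) ^ T := by
    calc (h n : ℝ) ≤ (C * B ^ T : ℕ) := by exact_mod_cast h3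
      _ = C * (B : ℝ) ^ T := by push_cast; ring
      _ ≤ C * (2 * x) ^ T :=
        mul_le_mul_of_nonneg_left (pow_le_pow_left₀ (Nat.cast_nonneg B) hBx T) hC'.le
  have hx0 : x ≠ 0 := by linarith
  calc Real.log (h n) ≤ Real.log (C * (2 * x) ^ T) := Real.log_le_log hh h5
    _ = Real.log C + T * (Real.log 2 + Real.log x) := by
      rw [Real.log_mul hC'.ne' (pow_ne_zero _ (mul_ne_zero two_ne_zero hx0)), Real.log_pow,
        Real.log_mul two_ne_zero hx0]
    _ = Real.log C + T * Real.log 2 + (T / V : ℝ) * Real.log n := by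
      rw [hx, Real.log_rpow hn0]
      ring

/-- JOB LIM -/
theorem stLim : StLim := by
  intro hTR hcore
  rw [tendsto_order]
  constructor
  · intro a ha
    filter_upwards [eventually_ge_atTop 2] with n hn
    have hn1 : (1 : ℝ) < n := by exact_mod_cast (by omega : 1 < n)
    have hl : 0 < Real.log n := Real.log_pos hn1
    have h1 : (n : ℝ) ≤ (h n : ℝ) * h n := by exact_mod_cast le_sq n
    have h2 : (0 : ℝ) < h n := by exact_mod_cast h_pos (by omega : 1 ≤ n)
    have h3 : Real.log n ≤ Real.log (h n) + Real.log (h n) := by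
      rw [← Real.log_mul h2.ne' h2.ne']
      exact Real.log_le_log (by linarith) h1
    refine lt_of_lt_of_le ha ?_
    rw [le_div_iff₀ hl]
    linarith
  · intro b hb
    set b' : ℝ := (b + 1 / 2) / 2 with hb'
    have hb1 : 1 / 2 < b' := by rw [hb']; linarith
    have hb2 : b' < b := by rw [hb']; linarith
    have hb0 : 0 < b' := by linarith
    have hr : 1 / b' < 2 := by
      rw [div_lt_iff₀ hb0]
      linarith
    obtain ⟨V, T, C, hT, hV, hrT, hc⟩ := hcore (1 / b') hr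
    have hV0 : (0 : ℝ) < V := by exact_mod_cast hV
    have hTV : (T / V : ℝ) ≤ b' := by
      rw [div_le_iff₀ hV0]
      have := mul_le_mul_of_nonneg_left hrT hb0.le
      rwa [← mul_assoc, mul_one_div_cancel hb0.ne', one_mul] at this
    have hlim : Tendsto (fun n : ℕ => (Real.log C + T * Real.log 2) / Real.log n + b') atTop
        (𝓝 b') := by
      have h1 : Tendsto (fun n : ℕ => Real.log (n : ℝ)) atTop atTop :=
        Real.tendsto_log_atTop.comp tendsto_natCast_atTop_atTop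
      have h2 := (h1.const_div_atTop (Real.log C + T * Real.log 2)).add_const b'
      rwa [zero_add] at h2
    filter_upwards [hlim.eventually (gt_mem_nhds hb2), eventually_ge_atTop 2] with n hn hn2
    have hn1 : (1 : ℝ) < n := by exact_mod_cast (by omega : 1 < n)
    have hl : 0 < Real.log n := Real.log_pos hn1
    refine lt_of_le_of_lt ?_ hn
    have h1 := upper_real hTR hV hc hn2
    have h2 : (T / V : ℝ) * Real.log n ≤ b' * Real.log n := mul_le_mul_of_nonneg_right hTV hl.le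
    rw [div_add' _ _ _ hl.ne', div_le_div_iff_of_pos_right hl]
    linarith

end Pool.Agent.K7.H93.RTLIM
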